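import Mathlib
import Pool.Agent.Q87.Sharp.State

/-!
# Rigid `k`-subsets imply sharply `k`-transitive actions

Let `M` be a countably infinite ultrahomogeneous relational structure whose age has strong
amalgamation and let `k ≥ 1` be such that all `k`-element substructures of `M` are rigid.  Then the
free group of countable rank has a structurally sharply `k`-transitive action on `M`.
-/

set_option autoImplicit false

namespace Pool.Agent.Results.MP_301b8f_al.RigidSharp

open FirstOrder FirstOrder.Language Pool.Agent.Q87.Sharp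

universe u v w

section

variable {L : FirstOrder.Language.{u, v}} [L.IsRelational] {M : Type w} [L.Structure M]
variable [DecidableEq M]

theorem main [Countable M] [Infinite M] (hU : L.IsUltrahomogeneous M)
    (hSA : StrongAmalgamation (L.age M)) (k : ℕ) (hk : 1 ≤ k) (hr : RigidSubsets L M k) :
    ∃ φ : FreeGroup ℕ →* Equiv.Perm M,
      (∀ g, ∃ e : M ≃[L] M, ∀ x, e x = φ g x) ∧
      ∀ a b : Fin k → M, Function.Injective a → Function.Injective b → SameType L a b →
        ∃! g : FreeGroup ℕ, ∀ i, φ g (a i) = b i := by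
  -- the generic ideal
  let ι := (ℕ × M) ⊕ (ℕ × M) ⊕ ((Fin k → M) × (Fin k → M))
  have : Encodable ι := Encodable.ofCountable ι
  let D : ι → Order.Cofinal (State L M k) := fun j => match j with
    | .inl (i, x) => ⟨{s | ∃ y, (x, y) ∈ s.p i}, fun s => by
        obtain ⟨s', h1, h2⟩ := dom_ext hU hSA s i x
        exact ⟨s', h2, h1⟩⟩
    | .inr (.inl (i, y)) => ⟨{s | ∃ x, (x, y) ∈ s.p i}, fun s => by
        obtain ⟨s', h1, h2⟩ := ran_ext hU hSA s i y
        exact ⟨s', h2, h1⟩⟩
    | .inr (.inr (a, b)) => ⟨{s | Function.Injective a → Function.Injective b →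
        SameType L a b → Conn (stp k s.p) (Finset.univ.image b) (Finset.univ.image a)}, fun s => by
        by_cases h : Function.Injective a ∧ Function.Injective b ∧ SameType L a b
        · obtain ⟨s', h1, h2⟩ := join_ext hU s a b h.1 h.2.1 h.2.2
          exact ⟨s', fun _ _ _ => h2, h1⟩
        · exact ⟨s, fun h1 h2 h3 => absurd ⟨h1, h2, h3⟩ h, le_rfl⟩⟩
  let I := Order.idealOfCofinals (State.empty (L := L) (M := M) k hk) D
  have hdir : ∀ s ∈ I, ∀ t ∈ I, ∃ r ∈ I, s ≤ r ∧ t ≤ r := fun s hs t ht => by
    obtain ⟨r, hr, h1, h2⟩ := I.directed s hs t ht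
    exact ⟨r, hr, h1, h2⟩
  have hne : ∃ s, s ∈ I := I.nonempty
  have hdom : ∀ i x, ∃ y, ∃ s ∈ I, (x, y) ∈ s.p i := by
    intro i x
    obtain ⟨s, ⟨y, hy⟩, hs⟩ := Order.cofinal_meets_idealOfCofinals
      (State.empty (L := L) (M := M) k hk) D (.inl (i, x))
    exact ⟨y, s, hs, hy⟩
  have hran : ∀ i y, ∃ x, ∃ s ∈ I, (x, y) ∈ s.p i := by
    intro i y
    obtain ⟨s, ⟨x, hx⟩, hs⟩ := Order.cofinal_meets_idealOfCofinals
      (State.empty (L := L) (M := M) k hk) D (.inr (.inl (i, y)))
    exact ⟨x, s, hs, hx⟩
  have hjoin : ∀ a b : Fin k → M, Function.Injective a → Function.Injective b → SameType L a b →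
      ∃ s ∈ I, Conn (stp k s.p) (Finset.univ.image b) (Finset.univ.image a) := by
    intro a b h1 h2 h3
    obtain ⟨s, hs1, hs⟩ := Order.cofinal_meets_idealOfCofinals
      (State.empty (L := L) (M := M) k hk) D (.inr (.inr (a, b)))
    exact ⟨s, hs, hs1 h1 h2 h3⟩
  choose t ht using hdom
  -- consistency
  have hfun : ∀ i x y, ∀ s ∈ I, (x, y) ∈ s.p i → y = t i x := by
    intro i x y s hs hxy
    obtain ⟨s', hs', h'⟩ := ht i x
    obtain ⟨r, hr, h1, h2⟩ := hdir s hs s' hs'
    obtain ⟨σ, hσ⟩ := r.ext i
    have e1 := hσ _ (h1 i hxy)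
    have e2 := hσ _ (h2 i h')
    exact e1.symm.trans e2
  have hinj : ∀ i, Function.Injective (t i) := by
    intro i x x' hxx
    obtain ⟨s, hs, h⟩ := ht i x
    obtain ⟨s', hs', h'⟩ := ht i x'
    obtain ⟨r, hr, h1, h2⟩ := hdir s hs s' hs'
    obtain ⟨σ, hσ⟩ := r.ext i
    have e1 := hσ _ (h1 i h)
    have e2 := hσ _ (h2 i h')
    simp only at e1 e2
    rw [← hxx, ← e1] at e2
    exact (σ.injective e2).symm
  have hsurj : ∀ i, Function.Surjective (t i) := by
    intro i y
    obtain ⟨x, s, hs, hxy⟩ := hran i y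
    exact ⟨x, (hfun i x y s hs hxy).symm⟩
  let T : ℕ → Equiv.Perm M := fun i => Equiv.ofBijective (t i) ⟨hinj i, hsurj i⟩
  have hT : ∀ i x, T i x = t i x := fun i x => rfl
  -- finitely many pairs are in one state
  have hfin : ∀ i (C : Finset M), ∀ s ∈ I, ∃ r ∈ I, s ≤ r ∧ ∀ x ∈ C, (x, T i x) ∈ r.p i := by
    intro i C s hs
    induction C using Finset.induction_on with
    | empty => exact ⟨s, hs, le_rfl, by simp⟩
    | insert x C hx ih =>
      obtain ⟨r, hr1, hr2, hr3⟩ := ih
      obtain ⟨s', hs', h'⟩ := ht i x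
      obtain ⟨r', hr', h1, h2⟩ := hdir r hr1 s' hs'
      refine ⟨r', hr', hr2.trans h1, fun y hy => ?_⟩
      rcases Finset.mem_insert.1 hy with rfl | hy
      · exact h2 i h'
      · exact h1 i (hr3 y hy)
  -- the subgroup of automorphisms
  let Aut : Subgroup (Equiv.Perm M) :=
    { carrier := {g | ∃ e : M ≃[L] M, ∀ x, e x = g x}
      one_mem' := ⟨FirstOrder.Language.Equiv.refl L M, fun x => rfl⟩
      mul_mem' := by
        rintro g h ⟨e, he⟩ ⟨f, hf⟩
        refine ⟨e.comp f, fun x => ?_⟩
        change e (f x) = g (h x)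
        rw [hf, he]
      inv_mem' := by
        rintro g ⟨e, he⟩
        refine ⟨e.symm, fun x => ?_⟩
        have h1 : e (e.symm x) = x := e.toEquiv.apply_symm_apply x
        rw [he] at h1
        exact (Equiv.eq_symm_apply g).2 h1 }
  have hTAut : ∀ i, T i ∈ Aut := by
    intro i
    refine ⟨{ toEquiv := T i
              map_fun' := fun {n} φ _ => (IsEmpty.false φ).elim
              map_rel' := ?_ }, fun x => rfl⟩
    intro n R x
    obtain ⟨s, hs⟩ := hne
    obtain ⟨r, hr1, _, hr3⟩ := hfin i (Finset.univ.image x) s hs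
    obtain ⟨σ, hσ⟩ := r.ext i
    have h1 : (T i : M → M) ∘ x = σ ∘ x := by
      funext j
      exact (hσ _ (hr3 (x j) (Finset.mem_image_of_mem _ (Finset.mem_univ _)))).symm
    change Structure.RelMap R ((T i : M → M) ∘ x) ↔ _
    rw [h1]
    exact σ.map_rel R x
  let φ : FreeGroup ℕ →* Equiv.Perm M := FreeGroup.lift T
  have hφ : ∀ g, φ g ∈ Aut := by
    intro g
    have : φ.range ≤ Aut := by
      rw [FreeGroup.range_lift_eq_closure, Subgroup.closure_le]
      rintro _ ⟨i, rfl⟩
      exact hTAut i
    exact this ⟨g, rfl⟩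
  -- words
  let val : Letter → Equiv.Perm M := fun l => bif l.2 then T l.1 else (T l.1)⁻¹
  have hval : ∀ (l : Letter) (L' : List Letter),
      φ (FreeGroup.mk (l :: L')) = val l * φ (FreeGroup.mk L') := by
    intro l L'
    simp only [φ, FreeGroup.lift_mk, List.map_cons, List.prod_cons, val]
  have hstep : ∀ s ∈ I, ∀ l C C', stp k s.p l C C' → C = C'.image (val l) := by
    rintro s hs ⟨i, b⟩ C C' ⟨_, _, h⟩
    have hz : ∀ z ∈ s.p i, T i z.1 = z.2 := fun z hz => (hfun i z.1 z.2 s hs hz).symm
    rcases h with ⟨hb, h⟩ | ⟨hb, h⟩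
    · simp only at hb; subst hb
      exact h.image hz
    · simp only at hb; subst hb
      have h1 := h.image hz
      rw [h1, Finset.image_image]
      have : (val (i, false) : M → M) ∘ (T i : M → M) = id := by
        funext x
        change (T i)⁻¹ (T i x) = x
        exact (T i).symm_apply_apply x
      rw [this, Finset.image_id]
  have hwalk : ∀ s ∈ I, ∀ (L' : List Letter) (C C' : Finset M), Walk (stp k s.p) L' C C' →
      C = C'.image (φ (FreeGroup.mk L')) := by
    intro s hs L' C C' w
    induction w with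
    | nil C =>
      have : FreeGroup.mk ([] : List Letter) = 1 := rfl
      rw [this, map_one]
      change C = C.image id
      rw [Finset.image_id]
    | cons h1 _ ih =>
      rw [hstep s hs _ _ _ h1, ih, Finset.image_image, hval]
      rfl
  have hwalk' : ∀ (L' : List Letter) (C' : Finset M), C'.card = k →
      ∃ s ∈ I, Walk (stp k s.p) L' (C'.image (φ (FreeGroup.mk L'))) C' := by
    intro L' C' hC'
    induction L' with
    | nil =>
      obtain ⟨s, hs⟩ := hne
      refine ⟨s, hs, ?_⟩
      have : FreeGroup.mk ([] : List Letter) = 1 := rfl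
      rw [this, map_one]
      have h2 : C'.image ((1 : Equiv.Perm M) : M → M) = C' := by
        change C'.image id = C'
        rw [Finset.image_id]
      rw [h2]
      exact .nil _
    | cons l L' ih =>
      obtain ⟨s, hs, w⟩ := ih
      set C1 := C'.image (φ (FreeGroup.mk L')) with hC1
      have hC1c : C1.card = k := by
        rw [hC1, Finset.card_image_of_injective _ (Equiv.injective _), hC']
      have e : C'.image (φ (FreeGroup.mk (l :: L'))) = C1.image (val l) := by
        rw [hC1, Finset.image_image, hval]; rfl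
      rw [e]
      obtain ⟨i, b⟩ := l
      cases b with
      | true =>
        obtain ⟨r, hr1, hr2, hr3⟩ := hfin i C1 s hs
        refine ⟨r, hr1, .cons ⟨?_, hC1c, .inl ⟨rfl, ?_⟩⟩ (w.mono (stp_mono hr2))⟩
        · rw [Finset.card_image_of_injective _ (Equiv.injective _), hC1c]
        · change Rl (r.p i) C1 (C1.image (T i))
          refine ⟨fun x hx => ⟨T i x, Finset.mem_image_of_mem _ hx, hr3 x hx⟩, fun y hy => ?_⟩
          obtain ⟨x, hx, rfl⟩ := Finset.mem_image.1 hy
          exact ⟨x, hx, hr3 x hx⟩
      | false =>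
        obtain ⟨r, hr1, hr2, hr3⟩ := hfin i (C1.image (val (i, false))) s hs
        refine ⟨r, hr1, .cons ⟨?_, hC1c, .inr ⟨rfl, ?_⟩⟩ (w.mono (stp_mono hr2))⟩
        · rw [Finset.card_image_of_injective _ (Equiv.injective _), hC1c]
        · change Rl (r.p i) (C1.image (val (i, false))) C1
          have hv : ∀ y, T i (val (i, false) y) = y := fun y => (T i).apply_symm_apply y
          refine ⟨fun x hx => ?_, fun y hy => ?_⟩
          · obtain ⟨y, hy, rfl⟩ := Finset.mem_image.1 hx
            refine ⟨y, hy, ?_⟩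
            have := hr3 _ hx
            rwa [hv] at this
          · have hx : val (i, false) y ∈ C1.image (val (i, false)) := Finset.mem_image_of_mem _ hy
            refine ⟨_, hx, ?_⟩
            have := hr3 _ hx
            rwa [hv] at this
  refine ⟨φ, hφ, fun a b ha hb hab => ?_⟩
  set A : Finset M := Finset.univ.image a with hA
  have hAc : A.card = k := by rw [hA, Finset.card_image_of_injective _ ha]; simp
  apply existsUnique_of_exists_of_unique
  · obtain ⟨s, hs, L', w⟩ := hjoin a b ha hb hab
    have h1 := hwalk s hs _ _ _ w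
    set g := FreeGroup.mk L' with hg
    obtain ⟨e, he⟩ := hφ g
    obtain ⟨σ, hσ⟩ := extend_tuple hU a b ha hb hab
    have hσs : ∀ x, σ.symm (σ x) = x := fun x => σ.toEquiv.symm_apply_apply x
    have hσs' : ∀ x, σ (σ.symm x) = x := fun x => σ.toEquiv.apply_symm_apply x
    have h2 : ∀ x ∈ A, (σ.symm.comp e) x ∈ A := by
      intro x hx
      have h3 : e x ∈ Finset.univ.image b := by
        rw [h1, he]; exact Finset.mem_image_of_mem _ hx
      obtain ⟨r, _, hr2⟩ := Finset.mem_image.1 h3
      change σ.symm (e x) ∈ A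
      rw [← hr2, ← hσ, hσs]
      exact Finset.mem_image_of_mem _ (Finset.mem_univ _)
    have h3 := rigid_use hr (σ.symm.comp e) A hAc h2
    refine ⟨g, fun i => ?_⟩
    have h4 : σ.symm (e (a i)) = a i := h3 (a i) (Finset.mem_image_of_mem _ (Finset.mem_univ _))
    have h5 := congrArg σ h4
    rw [hσs', hσ, he] at h5
    exact h5
  · intro g g' hg hg'
    by_contra hne'
    have h1 : g⁻¹ * g' ≠ 1 := fun h => hne' (inv_mul_eq_one.1 h)
    set h := g⁻¹ * g' with hh
    have h2 : ∀ i, φ h (a i) = a i := by
      intro i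
      rw [hh, map_mul, map_inv, Equiv.Perm.mul_apply, hg' i, ← hg i]
      exact (φ g).symm_apply_apply (a i)
    have h3 : A.image (φ h) = A := by
      rw [hA, Finset.image_image]
      apply Finset.image_congr
      intro i _
      exact h2 i
    obtain ⟨s, hs, w⟩ := hwalk' h.toWord A hAc
    rw [FreeGroup.mk_toWord, h3] at w
    exact s.acyc _ _ FreeGroup.isReduced_toWord (fun h4 => h1 (FreeGroup.toWord_eq_nil_iff.1 h4)) w

end

/-- **Negative answer to Q1.**  Let `M` be a countably infinite ultrahomogeneous relational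
structure whose age has strong amalgamation and let `k ≥ 1` be such that every substructure of `M`
with exactly `k` elements has trivial automorphism group.  Then there is an action of the free
group of countable rank on `M` by automorphisms which is structurally sharply `k`-transitive. -/
theorem result (L : FirstOrder.Language.{u, v}) [L.IsRelational] (M : Type w) [L.Structure M]
    [Countable M] [Infinite M] (hU : L.IsUltrahomogeneous M)
    (hSA : StrongAmalgamation (L.age M)) (k : ℕ) (hk : 1 ≤ k) (hr : RigidSubsets L M k) :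
    ∃ _ : MulAction (FreeGroup ℕ) M,
      (∀ g : FreeGroup ℕ, ∃ e : M ≃[L] M, ∀ x, e x = g • x) ∧
      ∀ a b : Fin k → M, Function.Injective a → Function.Injective b → SameType L a b →
        ∃! g : FreeGroup ℕ, ∀ i, g • a i = b i := by
  classical
  obtain ⟨φ, h1, h2⟩ := main hU hSA k hk hr
  exact ⟨MulAction.compHom M φ, h1, h2⟩

end Pool.Agent.Results.MP_301b8f_al.RigidSharp
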